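import Mathlib

/-! Project WL, module RND (helper61): averaging over choice functions. -/

set_option autoImplicit false

open Finset

namespace Pool.Agent.T6.H61.WL

theorem pow_step {S p : ℝ} (hS : 0 ≤ S) (hp : 0 ≤ p) (u : ℕ) :
    S ^ (u + 1) + ((u : ℝ) + 1) * p * S ^ u ≤ (S + p) ^ (u + 1) := by
  induction u with
  | zero => simp
  | succ u ih =>
    have h1 : (S + p) * (S ^ (u + 1) + ((u : ℝ) + 1) * p * S ^ u) ≤ (S + p) * (S + p) ^ (u + 1) :=
      mul_le_mul_of_nonneg_left ih (by positivity)
    have h2 : (S + p) * (S + p) ^ (u + 1) = (S + p) ^ (u + 1 + 1) := by ring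
    have h3 : 0 ≤ ((u : ℝ) + 1) * p ^ 2 * S ^ u := by positivity
    have h4 : (S + p) * (S ^ (u + 1) + ((u : ℝ) + 1) * p * S ^ u) =
        S ^ (u + 1 + 1) + ((u : ℝ) + 1 + 1) * p * S ^ (u + 1) +
          ((u : ℝ) + 1) * p ^ 2 * S ^ u := by ring
    push_cast
    linarith

theorem esymm_le {Ω : Type} [DecidableEq Ω] (p : Ω → ℝ) (hp : ∀ c, 0 ≤ p c) (A : Finset Ω) :
    ∀ u : ℕ, ∑ U ∈ powersetCard u A, ∏ c ∈ U, p c ≤ (∑ c ∈ A, p c) ^ u / (u.factorial : ℝ) := by
  induction A using Finset.induction_on with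
  | empty =>
    intro u
    rcases u with _ | u
    · simp
    · rw [powersetCard_eq_empty.2 (by simp)]
      simp
  | insert a A ha ih =>
    intro u
    rcases u with _ | u
    · simp
    · rw [powersetCard_succ_insert ha, sum_union]
      · rw [sum_image, sum_insert ha]
        · have h1 : ∑ x ∈ powersetCard u A, ∏ c ∈ insert a x, p c =
              p a * ∑ x ∈ powersetCard u A, ∏ c ∈ x, p c := by
            rw [mul_sum]
            refine sum_congr rfl fun x hx => ?_
            rw [prod_insert]
            intro h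
            exact ha ((mem_powersetCard.1 hx).1 h)
          rw [h1]
          obtain ⟨S, hS⟩ : ∃ S, S = ∑ c ∈ A, p c := ⟨_, rfl⟩
          have hS0 : 0 ≤ S := by rw [hS]; exact sum_nonneg fun c _ => hp c
          have h2 := ih (u + 1)
          have h3 := mul_le_mul_of_nonneg_left (ih u) (hp a)
          rw [← hS] at h2 h3 ⊢
          have h4 := pow_step hS0 (hp a) u
          have hf : (0 : ℝ) < (u.factorial : ℝ) := by exact_mod_cast u.factorial_pos
          have hf1 : ((u + 1).factorial : ℝ) = ((u : ℝ) + 1) * (u.factorial : ℝ) := by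
            rw [Nat.factorial_succ]; push_cast; ring
          have h5 : S ^ (u + 1) / ((u + 1).factorial : ℝ) + p a * (S ^ u / (u.factorial : ℝ)) =
              (S ^ (u + 1) + ((u : ℝ) + 1) * p a * S ^ u) / ((u + 1).factorial : ℝ) := by
            rw [hf1]
            field_simp
          have h6 : (S ^ (u + 1) + ((u : ℝ) + 1) * p a * S ^ u) / ((u + 1).factorial : ℝ) ≤
              (p a + S) ^ (u + 1) / ((u + 1).factorial : ℝ) := by
            rw [add_comm (p a) S]
            exact div_le_div_of_nonneg_right h4 (by positivity)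
          linarith
        · intro x hx y hy hxy
          have hx' : a ∉ x := fun h => ha ((mem_powersetCard.1 hx).1 h)
          have hy' : a ∉ y := fun h => ha ((mem_powersetCard.1 hy).1 h)
          have h := congrArg (fun s => s.erase a) hxy
          simpa [erase_insert hx', erase_insert hy'] using h
      · rw [disjoint_left]
        intro x hx hx2
        obtain ⟨y, -, rfl⟩ := mem_image.1 hx2
        exact ha ((mem_powersetCard.1 hx).1 (mem_insert_self a y))

open Classical in
theorem rnd (Ω Λ ι : Type) [Fintype Ω] (T : Ω → Finset Λ) (hT : ∀ c, (T c).Nonempty)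
    (I : Finset ι) (fam : ι → Finset Ω) (good : ι → Λ → Prop) (u : ℕ) :
    ∃ d : Ω → Λ, (∀ c, d c ∈ T c) ∧
      (∑ i ∈ I, (((powersetCard u (fam i)).filter (fun U => ∀ c ∈ U, good i (d c))).card : ℝ)) ≤
      ∑ i ∈ I, (∑ c ∈ fam i, (((T c).filter (fun P => good i P)).card : ℝ) / ((T c).card : ℝ)) ^ u /
        (u.factorial : ℝ) := by
  by_contra hcon
  push Not at hcon
  obtain ⟨D, hD⟩ : ∃ D, D = Fintype.piFinset T := ⟨_, rfl⟩
  have hDne : D.Nonempty := by
    rw [hD, Fintype.piFinset_nonempty]
    exact hT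
  have hpos : ∀ c, (0 : ℝ) < ((T c).card : ℝ) := fun c => by
    exact_mod_cast card_pos.2 (hT c)
  obtain ⟨p, hp⟩ : ∃ p : ι → Ω → ℝ, p = fun i c =>
    (((T c).filter (fun P => good i P)).card : ℝ) / ((T c).card : ℝ) := ⟨_, rfl⟩
  have hp0 : ∀ i c, 0 ≤ p i c := fun i c => by rw [hp]; positivity
  -- the sum over all choice functions
  have h1 : ∑ d ∈ D, (∑ i ∈ I, (∑ c ∈ fam i, p i c) ^ u / (u.factorial : ℝ)) <
      ∑ d ∈ D, ∑ i ∈ I,
        (((powersetCard u (fam i)).filter (fun U => ∀ c ∈ U, good i (d c))).card : ℝ) := by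
    refine sum_lt_sum_of_nonempty hDne fun d hd => ?_
    have h2 := hcon d (by
      intro c
      rw [hD] at hd
      exact Fintype.mem_piFinset.1 hd c)
    rw [hp]
    exact h2
  have hcount : ∀ (i : ι) (U : Finset Ω),
      ((D.filter (fun d => ∀ c ∈ U, good i (d c))).card : ℝ) = (D.card : ℝ) * ∏ c ∈ U, p i c := by
    intro i U
    have e1 : D.filter (fun d => ∀ c ∈ U, good i (d c)) =
        Fintype.piFinset (fun c => if c ∈ U then (T c).filter (fun P => good i P) else T c) := by
      ext d
      rw [mem_filter, hD, Fintype.mem_piFinset, Fintype.mem_piFinset]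
      constructor
      · rintro ⟨h2, h3⟩ c
        split_ifs with hc
        · exact mem_filter.2 ⟨h2 c, h3 c hc⟩
        · exact h2 c
      · intro h2
        constructor
        · intro c
          have h3 := h2 c
          split_ifs at h3 with hc
          · exact (mem_filter.1 h3).1
          · exact h3
        · intro c hc
          have h3 := h2 c
          rw [if_pos hc] at h3
          exact (mem_filter.1 h3).2
    rw [e1, Fintype.card_piFinset, hD, Fintype.card_piFinset]
    push_cast
    have e2 : ∏ c ∈ U, p i c = ∏ c, if c ∈ U then p i c else 1 := by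
      rw [Finset.prod_ite_mem, univ_inter]
    rw [e2, ← prod_mul_distrib]
    refine prod_congr rfl fun c _ => ?_
    split_ifs with hc
    · rw [hp]
      have := hpos c
      field_simp
    · rw [mul_one]
  have h2 : ∑ d ∈ D, ∑ i ∈ I,
        (((powersetCard u (fam i)).filter (fun U => ∀ c ∈ U, good i (d c))).card : ℝ) =
      ∑ i ∈ I, (D.card : ℝ) * ∑ U ∈ powersetCard u (fam i), ∏ c ∈ U, p i c := by
    rw [sum_comm]
    refine sum_congr rfl fun i _ => ?_
    rw [mul_sum]
    have e3 : ∀ d : Ω → Λ,
        (((powersetCard u (fam i)).filter (fun U => ∀ c ∈ U, good i (d c))).card : ℝ) =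
        ∑ U ∈ powersetCard u (fam i), if (∀ c ∈ U, good i (d c)) then (1 : ℝ) else 0 := by
      intro d
      rw [sum_boole]
    simp_rw [e3]
    rw [sum_comm]
    refine sum_congr rfl fun U _ => ?_
    rw [← hcount i U, sum_boole]
  have h3 : ∑ i ∈ I, (D.card : ℝ) * ∑ U ∈ powersetCard u (fam i), ∏ c ∈ U, p i c ≤
      ∑ d ∈ D, (∑ i ∈ I, (∑ c ∈ fam i, p i c) ^ u / (u.factorial : ℝ)) := by
    rw [sum_const, nsmul_eq_mul, mul_sum]
    refine sum_le_sum fun i _ => ?_
    exact mul_le_mul_of_nonneg_left (esymm_le (p i) (hp0 i) (fam i) u) (by positivity)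
  rw [h2] at h1
  exact absurd h1 (not_lt.2 h3)

end Pool.Agent.T6.H61.WL
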